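import Pool.Agent.BSH.Stmts

/-!
# Squad BSH, row LOW: the lowest parts of `z_i` and `y_i`
-/

set_option autoImplicit false

open MvPolynomial

namespace Pool.Agent.BSH.H7

variable {E : Type} [Field E]

/-- the weight `1` on the variables `x_(k+j)`, `j < r`. -/
noncomputable def wg (k r : ℕ) : (ℕ →₀ ℕ) →+ ℕ :=
  Finsupp.weight fun i => if k ≤ i ∧ i < k + r then 1 else 0

theorem wg_single (k r i : ℕ) : wg k r (Finsupp.single i 1) =
    if k ≤ i ∧ i < k + r then 1 else 0 := by
  rw [wg, Finsupp.weight_single]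
  simp

theorem th_X (k r i : ℕ) : th E k r (X i) =
    Polynomial.X ^ (wg k r (Finsupp.single i 1)) * Polynomial.C (X i) := by
  rw [th, aeval_X, wg_single]
  split_ifs <;> simp

theorem th_C (k r : ℕ) (c : E) : th E k r (C c) = Polynomial.C (C c) := by
  have h := (th E k r).commutes c
  rw [MvPolynomial.algebraMap_eq] at h
  rw [h]
  rfl

theorem th_monomial (k r : ℕ) (m : ℕ →₀ ℕ) (c : E) : th E k r (monomial m c) =
    Polynomial.X ^ (wg k r m) * Polynomial.C (monomial m c) := by
  induction m using Finsupp.induction_linear generalizing c with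
  | zero =>
    have h : (monomial (0 : ℕ →₀ ℕ) c : MvPolynomial ℕ E) = C c := rfl
    rw [h, th_C, map_zero, pow_zero, one_mul]
  | add f g hf hg =>
    have h : (monomial (f + g) c : MvPolynomial ℕ E) = monomial f c * monomial g 1 := by
      rw [monomial_mul, mul_one]
    rw [h, map_mul, hf, hg, map_add, Polynomial.C_mul, pow_add]
    ring
  | single i n =>
    have h : (monomial (Finsupp.single i n) c : MvPolynomial ℕ E) = C c * X i ^ n := by
      rw [C_mul_X_pow_eq_monomial]
    have h2 : wg k r (Finsupp.single i n) = n * wg k r (Finsupp.single i 1) := by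
      have : (Finsupp.single i n : ℕ →₀ ℕ) = n • Finsupp.single i 1 := by
        rw [Finsupp.smul_single, smul_eq_mul, mul_one]
      rw [this, map_nsmul, smul_eq_mul]
    rw [h, map_mul, map_pow, th_C, th_X, h2, mul_pow, ← pow_mul, mul_comm n, Polynomial.C_mul,
      Polynomial.C_pow]
    ring

theorem coeff_th (k r : ℕ) (F : MvPolynomial ℕ E) (e : ℕ) (m : ℕ →₀ ℕ) :
    coeff m ((th E k r F).coeff e) = if wg k r m = e then coeff m F else 0 := by
  classical
  induction F using MvPolynomial.induction_on' with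
  | monomial s a =>
    rw [th_monomial, mul_comm, Polynomial.coeff_C_mul_X_pow, coeff_monomial]
    by_cases h1 : s = m
    · subst h1
      by_cases h2 : wg k r s = e
      · rw [if_pos h2.symm, if_pos h2, coeff_monomial]
      · rw [if_neg (fun h => h2 h.symm), if_neg h2, coeff_zero]
    · rw [if_neg h1, ite_self]
      split_ifs
      · rw [coeff_monomial, if_neg h1]
      · rw [coeff_zero]
  | add p q hp hq =>
    rw [map_add, Polynomial.coeff_add, coeff_add, hp, hq, coeff_add]
    split_ifs
    · rfl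
    · rw [add_zero]

theorem th_pderiv_w (k r j : ℕ) (hj : j < r) (F : MvPolynomial ℕ E) (n : ℕ) :
    (th E k r (pderiv (k + j) F)).coeff n = pderiv (k + j) ((th E k r F).coeff (n + 1)) := by
  ext m
  have hw : wg k r (m + Finsupp.single (k + j) 1) = wg k r m + 1 := by
    rw [map_add (wg k r), wg_single, if_pos ⟨Nat.le_add_right _ _, by omega⟩]
  rw [coeff_th, coeff_pderiv, coeff_pderiv, coeff_th, hw]
  by_cases h : wg k r m = n
  · rw [if_pos h, if_pos (by omega)]
  · rw [if_neg h, if_neg (by omega), zero_mul]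

theorem th_pderiv_t (k r i : ℕ) (hi : i < k) (F : MvPolynomial ℕ E) (n : ℕ) :
    (th E k r (pderiv i F)).coeff n = pderiv i ((th E k r F).coeff n) := by
  ext m
  have hw : wg k r (m + Finsupp.single i 1) = wg k r m := by
    rw [map_add (wg k r), wg_single, if_neg (by omega), add_zero]
  rw [coeff_th, coeff_pderiv, coeff_pderiv, coeff_th, hw]
  by_cases h : wg k r m = n
  · rw [if_pos h, if_pos h]
  · rw [if_neg h, if_neg h, zero_mul]

theorem lowForm {R : Type} [CommRing R] (P : Polynomial R) (M : ℕ) (c : R)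
    (h : ∀ n < M, P.coeff n = 0) (hc : P.coeff M = c) :
    ∃ Q : Polynomial R, P = Polynomial.X ^ M * (Polynomial.C c + Polynomial.X * Q) := by
  obtain ⟨P', hP'⟩ := Polynomial.X_pow_dvd_iff.2 h
  refine ⟨P'.divX, ?_⟩
  have h1 : P'.coeff 0 = c := by
    rw [← hc, hP']
    simp [Polynomial.coeff_X_pow_mul']
  rw [hP', ← h1, add_comm, Polynomial.X_mul_divX_add]

theorem low : LowStmt := by
  intro E _ _ k r d a Φ hmin hΦ h0
  classical
  -- the order
  have hex : ∃ e, (th E k r Φ).coeff e ≠ 0 := by
    obtain ⟨m, hm⟩ := MvPolynomial.ne_zero_iff.1 hΦ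
    refine ⟨wg k r m, fun h => hm ?_⟩
    have h1 := coeff_th k r Φ (wg k r m) m
    rw [h, coeff_zero, if_pos rfl] at h1
    exact h1.symm
  set e := Nat.find hex with he
  have he1 : (th E k r Φ).coeff e ≠ 0 := Nat.find_spec hex
  have he2 : ∀ n < e, (th E k r Φ).coeff n = 0 := fun n hn => by
    by_contra h
    exact Nat.find_min hex hn h
  have he3 : e ≠ 0 := fun h => he1 (by rw [h]; exact h0)
  obtain ⟨M, hM⟩ := Nat.exists_eq_succ_of_ne_zero he3
  set Φe := (th E k r Φ).coeff e with hΦe
  -- the coefficients of `th (zz ..)`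
  have hz : ∀ i n, (th E k r (zz k r a Φ i)).coeff n =
      ∑ j ∈ Finset.range r, C (a i j) * pderiv (k + j) ((th E k r Φ).coeff (n + 1)) := by
    intro i n
    rw [zz, map_sum, Polynomial.finsetSum_coeff]
    refine Finset.sum_congr rfl fun j hj => ?_
    rw [map_mul, th_C, Polynomial.coeff_C_mul, th_pderiv_w k r j (Finset.mem_range.1 hj)]
  have hz1 : ∀ i, ∀ n < M, (th E k r (zz k r a Φ i)).coeff n = 0 := by
    intro i n hn
    rw [hz, he2 (n + 1) (by omega)]
    simp
  have hz2 : ∀ i, (th E k r (zz k r a Φ i)).coeff M = zz k r a Φe i := by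
    intro i
    rw [hz, hΦe, hM]
    rfl
  -- the coefficients of `th (yy ..)`
  have hy : ∀ i < k, ∀ n ≤ M, (th E k r (yy k r d a Φ i)).coeff n =
      -(C (d : E) * X i ^ (d - 1) * (th E k r (zz k r a Φ i)).coeff n) := by
    intro i hi n hn
    rw [yy, map_sub, Polynomial.coeff_sub, th_pderiv_t k r i hi, he2 n (by omega), map_zero,
      zero_sub, map_mul, map_mul, map_pow, th_C, th_X, wg_single, if_neg (by omega), pow_zero,
      one_mul, ← Polynomial.C_pow, ← Polynomial.C_mul, Polynomial.coeff_C_mul]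
  refine ⟨M, (Finset.range k).filter fun i => zz k r a Φe i = 0, fun i => zz k r a Φe i, ?_, ?_⟩
  · by_contra hcard
    rw [not_lt] at hcard
    obtain ⟨S, hS, hc⟩ := Finset.exists_subset_card_eq hcard
    let f : Fin r → ℕ := fun x => ((Finset.equivFinOfCardEq hc).symm x : ℕ)
    have hfS : ∀ x, f x ∈ S := fun x => ((Finset.equivFinOfCardEq hc).symm x).2
    have hfi : Function.Injective f := fun x y hxy =>
      (Finset.equivFinOfCardEq hc).symm.injective (Subtype.ext hxy)
    have hdet := hmin f hfi fun x => Finset.mem_range.1 (Finset.mem_filter.1 (hS (hfS x))).1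
    -- all derivatives vanish
    have hder : ∀ j < r, pderiv (k + j) Φe = 0 := by
      intro j hj
      ext m
      have h1 : (Matrix.of fun x y : Fin r => a (f x) y).mulVec
          (fun j : Fin r => coeff m (pderiv (k + (j : ℕ)) Φe)) = 0 := by
        funext x
        have h2 := (Finset.mem_filter.1 (hS (hfS x))).2
        rw [zz] at h2
        have h3 := congrArg (coeff m) h2
        rw [coeff_sum, coeff_zero, Finset.sum_range] at h3
        simp only [coeff_C_mul] at h3
        exact h3
      have h4 := Matrix.eq_zero_of_mulVec_eq_zero hdet h1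
      exact congrFun h4 ⟨j, hj⟩
    obtain ⟨m, hm⟩ := MvPolynomial.ne_zero_iff.1 he1
    have h1 := coeff_th k r Φ e m
    have h2 : wg k r m = e := by
      by_contra h
      rw [if_neg h] at h1
      exact hm h1
    have h3 : ∃ i, m i ≠ 0 ∧ k ≤ i ∧ i < k + r := by
      by_contra hno
      push Not at hno
      apply he3
      rw [← h2, wg, Finsupp.weight_apply, Finsupp.sum]
      refine Finset.sum_eq_zero fun i hi => ?_
      rw [if_neg, smul_zero]
      intro hk
      exact absurd hk.2 (not_lt.2 (hno i (Finsupp.mem_support_iff.1 hi) hk.1))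
    obtain ⟨i, hi1, hi2, hi3⟩ := h3
    obtain ⟨j, rfl⟩ := Nat.exists_eq_add_of_le hi2
    have h4 := hder j (by omega)
    have h5 := coeff_pderiv (i := k + j) Φe (m - Finsupp.single (k + j) 1)
    rw [h4, coeff_zero, Finsupp.sub_add_single_one_cancel hi1] at h5
    rcases mul_eq_zero.1 h5.symm with h6 | h6
    · exact hm h6
    · have : ((((m - Finsupp.single (k + j) 1 : ℕ →₀ ℕ) (k + j) + 1 : ℕ)) : E) = 0 := by
        rw [← h6]
        push_cast
        rfl
      exact absurd (Nat.cast_eq_zero.1 this) (Nat.succ_ne_zero _)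
  · intro i hi hbad
    refine ⟨fun h => hbad (Finset.mem_filter.2 ⟨Finset.mem_range.2 hi, h⟩), ?_, ?_⟩
    · exact lowForm _ M _ (hz1 i) (hz2 i)
    · refine lowForm _ M _ (fun n hn => ?_) ?_
      · rw [hy i hi n hn.le, hz1 i n hn, mul_zero, neg_zero]
      · rw [hy i hi M le_rfl, hz2]

end Pool.Agent.BSH.H7
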